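import Pool.Agent.Helper38.RS.Asm
import Pool.Agent.Helper42.RD.Goals2
import Pool.Agent.Helper22.RP.PHI
import Pool.Agent.Helper16.RP.LA
import Pool.Agent.Helper94.RP.RAT
import Pool.Agent.Helper12.RP.ROO
import Pool.Agent.Helper20.RP.TAM
import Pool.Agent.Helper79.RP.HIL
import Pool.Agent.Helper9.RP.P1
import Pool.Agent.Helper90.RP.SUB
import Pool.Agent.Helper19.RP.LEM
import Pool.Agent.Helper96.RP.UPB
import Pool.Agent.Helper59.RP.BIN
import Pool.Agent.Helper95.RP.LAT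
import Pool.Agent.Helper39.RP.SIG
import Pool.Agent.Helper99.RP.PRM
import Pool.Agent.Helper32.RP.LOB
import Pool.Agent.Helper49.RP.LAM
import Pool.Agent.Helper10.RP.CHR
import Pool.Agent.Helper90.RP.DUAL
import Pool.Agent.Helper31.RP.STP
import Pool.Agent.Helper11.RP.NSP
import Pool.Agent.Helper17.RSP.LBD
import Pool.Agent.Helper17.RSP.HLF
import Pool.Agent.Helper58.RSP.EUL
import Pool.Agent.Helper84.RSP.KUM
import Pool.Agent.Helper99.RSP.QEX
import Pool.Agent.Helper42.RD.VAL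
import Pool.Agent.Helper88.RD.SLG
import Pool.Agent.Helper19.RD.FIN
import Pool.Agent.Helper13.RD.ORB
import Pool.Agent.Helper74.RD.DSC
import Pool.Agent.Helper5.RD.COR
import Pool.Agent.Helper40.RD.TRF
import Pool.Agent.Helper14.RD.TOW
import Pool.Agent.Helper13.RD.MAT
import Pool.Agent.Helper60.RD.BEX
import Pool.Agent.Helper96.RD.NFI
import Pool.Agent.Helper33.RD.OMG
import Pool.Agent.Helper8.RD.SHF
import Pool.Agent.Helper32.RD.KUM
import Pool.Agent.Helper72.RD.TOR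
import Pool.Agent.Helper79.RD.GOO
import Pool.Agent.Helper42.RD.EXA
import Pool.Agent.Helper84.RSP.SPL
import Pool.Agent.Helper35.RD.RSP
import Pool.Agent.Helper12.RD.DSQ
import Pool.Agent.Helper14.RD.FIR
import Pool.Agent.Helper20.RD.FRB
import Pool.Agent.Helper30.RD.COQ
import Pool.Agent.Helper74.RD.RSQ
import Pool.Agent.Helper76.RD.DSA
import Pool.Agent.Helper76.RD.PRO
import Pool.Agent.Helper83.RD.ALL
import Pool.Agent.Helper94.RD.ORP

/-! Assembly for all primes `p`. -/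

namespace Pool.Agent.Helper38.RD

open Pool.Agent.Helper51.RP Pool.Agent.Helper38.RSP Pool.Agent.Helper42.RD
  Pool.Agent.Helper76.RD

theorem s_sex : S_SEX := Pool.Agent.Helper81.RS.s_sex

theorem s_eig : S_EIG := Pool.Agent.Helper9.RS.s_eig

theorem s_dual : S_DUAL :=
  have upb : S_UPB := Pool.Agent.Helper96.RP.s_upb Pool.Agent.Helper19.RP.s_lem s_eig
  have sig : S_SIG := Pool.Agent.Helper39.RP.s_sig Pool.Agent.Helper95.RP.s_lat
  have lob : S_LOB := Pool.Agent.Helper32.RP.s_lob Pool.Agent.Helper90.RP.s_sub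
    Pool.Agent.Helper59.RP.s_bin sig Pool.Agent.Helper99.RP.s_prm
  Pool.Agent.Helper90.RP.Dual.s_dual Pool.Agent.Helper90.RP.s_sub upb lob
    Pool.Agent.Helper49.RP.s_lam (Pool.Agent.Helper10.RP.s_chr Pool.Agent.Helper59.RP.s_bin)

theorem s_p1 : S_P1 :=
  Pool.Agent.Helper9.RP.s_p1 Pool.Agent.Helper16.RP.s_la Pool.Agent.Helper94.RP.s_rat
    (Pool.Agent.Helper79.RP.s_hil Pool.Agent.Helper12.RP.s_roo Pool.Agent.Helper42.RS.s_ram_p
      Pool.Agent.Helper20.RP.s_tam)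

theorem sp_hlf : SP_HLF :=
  have lbd : SP_LBD := Pool.Agent.Helper17.RSP.sp_lbd Pool.Agent.Helper38.RS.s_unf
    Pool.Agent.Helper38.RS.s_par Pool.Agent.Helper3.RS.s_rep
    Pool.Agent.Helper38.RS.s_zet
  Pool.Agent.Helper17.RSP.sp_hlf lbd Pool.Agent.Helper58.RSP.sp_eul
    Pool.Agent.Helper38.RS.s_psm

theorem sp_qex : SP_QEX :=
  Pool.Agent.Helper99.RSP.sp_qex sp_hlf
    (Pool.Agent.Helper84.RSP.sp_kum Pool.Agent.Helper84.RSP.sp_spl Pool.Agent.Helper38.RS.s_psm)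
    Pool.Agent.Helper38.RS.s_kum Pool.Agent.Helper88.RS.s_dg1

theorem d_cor : D_COR :=
  have dsc : D_DSC := Pool.Agent.Helper74.RD.d_dsc s_sex s_dual Pool.Agent.Helper31.RP.s_stp
    sp_qex Pool.Agent.Helper42.RD.d_val Pool.Agent.Helper88.RD.d_slg Pool.Agent.Helper13.RD.d_orb
  Pool.Agent.Helper5.RD.d_cor dsc Pool.Agent.Helper19.RD.d_fin Pool.Agent.Helper88.RD.d_slg

theorem d_coq : D_COQ :=
  have dsa : D_DSA := Pool.Agent.Helper76.RD.d_dsa s_sex s_dual Pool.Agent.Helper31.RP.s_stp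
    sp_qex Pool.Agent.Helper42.RD.d_val Pool.Agent.Helper88.RD.d_slg
  have orp : D_ORP := Pool.Agent.Helper94.RD.d_orp Pool.Agent.Helper13.RD.d_orb
  have pro : D_PRO := Pool.Agent.Helper76.RD.d_pro Pool.Agent.Helper88.RD.d_slg
  Pool.Agent.Helper30.RD.d_coq (Pool.Agent.Helper12.RD.d_dsq dsa orp pro)
    (Pool.Agent.Helper14.RD.d_fir Pool.Agent.Helper19.RD.d_fin) Pool.Agent.Helper88.RD.d_slg

theorem e_mat : E_MAT :=
  Pool.Agent.Helper13.RD.e_mat Pool.Agent.Helper11.RP.s_nsp Pool.Agent.Helper40.RD.e_trf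

theorem e_goo : E_GOO :=
  Pool.Agent.Helper79.RD.e_goo s_p1 Pool.Agent.Helper11.RP.s_nsp e_mat Pool.Agent.Helper72.RD.e_tor

theorem e_exa : E_EXA :=
  have bex : E_BEX := Pool.Agent.Helper60.RD.e_bex sp_hlf Pool.Agent.Helper38.RS.s_psm
  have nfi : E_NFI := Pool.Agent.Helper96.RD.e_nfi Pool.Agent.Helper38.RS.s_psm
    Pool.Agent.Helper88.RS.s_dg1
  Pool.Agent.Helper42.RD.e_exa Pool.Agent.Helper14.RD.e_tow Pool.Agent.Helper40.RD.e_trf bex nfi
    Pool.Agent.Helper33.RD.e_omg Pool.Agent.Helper8.RD.e_shf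

/-- The theorem for one pair, all primes `p`. -/
theorem e_rsp : E_RSP :=
  Pool.Agent.Helper35.RD.e_rsp Pool.Agent.Helper22.RP.s_phi d_cor Pool.Agent.Helper14.RD.e_tow
    Pool.Agent.Helper72.RD.e_tor e_exa Pool.Agent.Helper32.RD.e_kum e_goo

theorem e_inm : E_INM :=
  Pool.Agent.Helper35.RD.e_inm Pool.Agent.Helper14.RD.e_tow e_exa Pool.Agent.Helper32.RD.e_kum e_goo

/-- The theorem for families of pairs in at most `p` classes. -/
theorem e_rsq : E_RSQ :=
  Pool.Agent.Helper74.RD.e_rsq Pool.Agent.Helper22.RP.s_phi d_coq Pool.Agent.Helper72.RD.e_tor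
    Pool.Agent.Helper20.RD.e_frb e_inm

/-- All ordinary types and all faithful characters, for large `p`. -/
theorem e_all : E_ALL := Pool.Agent.Helper83.RD.e_all e_rsq

end Pool.Agent.Helper38.RD
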